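import Pool.Agent.Lib.MP_c7e804_gt.H43Free

namespace Pool.Agent.Results.MP_c7e804_gt.FreeBoundary

open Pool.Agent.Lib.MP_c7e804_gt

/-- Free boundary case (contact angle `π / 2`): a free boundary minimal annulus in the unit ball
whose two boundary curves are simple (in particular every embedded one) is foliated by closed
curvature lines, each on a sphere centred on a fixed axis or on a plane orthogonal to it. -/
theorem result (ψ : ℝ × ℝ → V3) (a b τ : ℝ)
    (h : CapAnnulus ψ a b τ (Real.pi / 2) (Real.pi / 2))
    (ha : SimpleAt ψ τ a) (hb : SimpleAt ψ τ b) :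
    ∃ e : V3, e ≠ 0 ∧ FoliatedAbout ψ a b e :=
  free_main h ha hb

end Pool.Agent.Results.MP_c7e804_gt.FreeBoundary
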