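import Pool.Agent.Lib.MP_c7e804_gt.H43UMain

namespace Pool.Agent.Results.MP_c7e804_gt.Full

open Pool.Agent.Lib.MP_c7e804_gt

/-- Every embedded constant-angle minimal annulus in the unit ball, for every contact angle
`θ ∈ (0, π)` and in any smooth parametrisation, is foliated by closed curvature lines, each on a
sphere centred on a fixed axis or on a plane orthogonal to it. -/
theorem result (X : ℝ × ℝ → V3) (θ : ℝ) (h : MinAnnulus X θ) (he : Embedded X 0 1 1) :
    ∃ (e : V3) (Φ : ℝ × ℝ → ℝ × ℝ) (b τ : ℝ), e ≠ 0 ∧ Reparam Φ b τ ∧ ∀ u ∈ Set.Icc 0 b,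
      CurvatureLine X (fun v => Φ (u, v)) ∧ SphericalAbout e (fun v => X (Φ (u, v))) :=
  textbook_main h he

end Pool.Agent.Results.MP_c7e804_gt.Full
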