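import Pool.Agent.Lib.MP_c7e804_gt.H63Jacobi

namespace Pool.Agent.Results.MP_c7e804_gt.Nullity

open Pool.Agent.Lib.MP_c7e804_gt Matrix

/-- A constant-angle minimal annulus in the unit ball whose space of capillary Jacobi fields has
dimension at most three (any four Jacobi fields are linearly dependent on the annulus) is foliated
by closed curvature lines lying on spheres centred on a line through the origin or on planes
orthogonal to that line. -/
theorem result (ψ : ℝ × ℝ → V3) (a b τ θa θb : ℝ) (h : CapAnnulus ψ a b τ θa θb)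
    (hnull : ∀ f : Fin 4 → ℝ × ℝ → ℝ, (∀ i, IsJacobi ψ a b τ θa θb (f i)) →
      ∃ c : Fin 4 → ℝ, c ≠ 0 ∧ ∀ p ∈ strip a b, ∑ i, c i * f i p = 0) :
    ∃ e : V3, e ≠ 0 ∧ FoliatedAbout ψ a b e := by
  obtain ⟨c, hc, hs⟩ := hnull
    ![be ψ, rotN ψ ![1, 0, 0], rotN ψ ![0, 1, 0], rotN ψ ![0, 0, 1]] (fun i => by
      fin_cases i
      · exact h.jacobi_be
      · exact h.jacobi_R _
      · exact h.jacobi_R _
      · exact h.jacobi_R _)
  have hlin : ∀ p ∈ strip a b, c 0 * be ψ p + 1 * rotN ψ ![c 1, c 2, c 3] p = 0 := by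
    intro p hp
    have := hs p hp
    simp only [Fin.sum_univ_four, Matrix.cons_val_zero, Matrix.cons_val_one, Matrix.cons_val,
      rotN] at this
    rw [← this, rotN]
    simp [cross_apply, dotProduct, Fin.sum_univ_three]
    ring
  by_cases he : (![c 1, c 2, c 3] : V3) = 0
  · have h0 : c 0 ≠ 0 := by
      intro h0
      apply hc
      have h1 : c 1 = 0 := congrFun he 0
      have h2 : c 2 = 0 := congrFun he 1
      have h3 : c 3 = 0 := congrFun he 2
      funext i
      fin_cases i
      · exact h0
      · exact h1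
      · exact h2
      · exact h3
    refine ⟨![1, 0, 0], fun h1 => by simpa using congrFun h1 0, h.foliated_of_Z _ fun p hp =>
      h.Z_zero_of_dep _ (s := c 0) (t := 0) (Or.inl h0) (fun q hq => ?_) hp⟩
    have := hlin q hq
    rw [he, rotN] at this
    simpa using this
  · exact ⟨_, he, h.foliated_of_Z _ fun p hp =>
      h.Z_zero_of_dep _ (Or.inr one_ne_zero) hlin hp⟩

end Pool.Agent.Results.MP_c7e804_gt.Nullity
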