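import Pool.Agent.Lib.MP_c7e804_gt.H43Core

namespace Pool.Agent.Results.MP_c7e804_gt.StarShaped

open Pool.Agent.Lib.MP_c7e804_gt Matrix

/-- Any contact angle: a constant-angle minimal annulus in the unit ball with simple boundary
curves whose support function `N · ψ` does not change sign is foliated by closed curvature lines,
each on a sphere centred on a fixed axis or on a plane orthogonal to it. -/
theorem result (ψ : ℝ × ℝ → V3) (a b τ θ : ℝ) (h : CapAnnulus ψ a b τ θ θ)
    (ha : SimpleAt ψ τ a) (hb : SimpleAt ψ τ b)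
    (hs : (∀ p ∈ strip a b, 0 ≤ normal ψ p ⬝ᵥ ψ p) ∨ ∀ p ∈ strip a b, normal ψ p ⬝ᵥ ψ p ≤ 0) :
    ∃ e : V3, e ≠ 0 ∧ FoliatedAbout ψ a b e :=
  star_main h ha hb hs

end Pool.Agent.Results.MP_c7e804_gt.StarShaped
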